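import Mathlib

namespace Pool.Agent.Results.MP_d64b07_co.Equiv

open SimpleGraph

/-- The `k`-colourings of `G`: partitions of the vertex set into at most `k` independent sets. -/
def Colourings {V : Type} (G : SimpleGraph V) (k : ℕ) : Set (Setoid V) :=
  {s | Nat.card (Quotient s) ≤ k ∧ ∀ x y, G.Adj x y → ¬ s x y}

/-- `G` has at least `d` distinct `k`-colourings. -/
def DFold {V : Type} (G : SimpleGraph V) (d k : ℕ) : Prop := d ≤ (Colourings G k).ncard

/-- `G` is maximal `d`-fold `k`-colourable. -/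
def MaximalDFold {V : Type} (G : SimpleGraph V) (d k : ℕ) : Prop :=
  DFold G d k ∧ ∀ x y, x ≠ y → ¬ G.Adj x y → ¬ DFold (G ⊔ edge x y) d k

/-- `G` has a `K_k` minor: `k` disjoint connected branch sets, any two joined by an edge. -/
def HasCliqueMinor {V : Type} (G : SimpleGraph V) (k : ℕ) : Prop :=
  ∃ B : Fin k → Set V, (∀ i, (G.induce (B i)).Connected) ∧
    ∀ i j, i ≠ j → Disjoint (B i) (B j) ∧ ∃ x ∈ B i, ∃ y ∈ B j, G.Adj x y

/-- Q1 for a given `k`. -/
def Q1 (k : ℕ) : Prop :=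
  ∀ d ≥ 1, ∀ (V : Type) [Finite V] (G : SimpleGraph V),
    MaximalDFold G d k → G.Colorable (k - 1) ∨ HasCliqueMinor G k

/-- Hadwiger's conjecture for a given `k`. -/
def Hadwiger (k : ℕ) : Prop :=
  ∀ (V : Type) [Finite V] (G : SimpleGraph V), G.Colorable (k - 1) ∨ HasCliqueMinor G k

theorem lift {V : Type} (G : SimpleGraph V) (S : Set V) (k : ℕ)
    (h : HasCliqueMinor (G.induce S) k) : HasCliqueMinor G k := by
  obtain ⟨B, h1, h2⟩ := h
  refine ⟨fun i => Subtype.val '' B i, fun i => ?_, fun i j hij => ⟨?_, ?_⟩⟩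
  · refine (h1 i).map (⟨fun x => ⟨x.1.1, x.1, x.2, rfl⟩, fun h => h⟩ :
      (G.induce S).induce (B i) →g G.induce (Subtype.val '' B i)) ?_
    rintro ⟨_, x, hx, rfl⟩
    exact ⟨⟨x, hx⟩, rfl⟩
  · exact (Set.disjoint_image_iff Subtype.val_injective).2 (h2 i j hij).1
  · obtain ⟨x, hx, y, hy, h⟩ := (h2 i j hij).2
    exact ⟨x, ⟨x, hx, rfl⟩, y, ⟨y, hy, rfl⟩, h⟩

theorem together {V : Type} (G : SimpleGraph V) (k : ℕ) (hk : 1 ≤ k) (x y : V)
    (hxy : ¬ G.Adj x y) (h : (G.induce {x}ᶜ).Colorable (k - 1)) :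
    ∃ s ∈ Colourings G k, s x y := by
  classical
  obtain ⟨c⟩ := h
  let col : V → Option (Fin (k - 1)) := fun v =>
    if hv : v = x ∨ v = y then none else some (c ⟨v, fun h => hv (Or.inl h)⟩)
  refine ⟨Setoid.ker col, ⟨?_, fun a b hab hc => ?_⟩, ?_⟩
  · refine (Nat.card_le_card_of_injective _ (Setoid.kerLift_injective col)).trans ?_
    simp only [Nat.card_eq_fintype_card, Fintype.card_option, Fintype.card_fin]
    omega
  · have hc' : col a = col b := hc
    simp only [col] at hc'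
    split_ifs at hc' with h1 h2 h2
    · rcases h1 with rfl | rfl <;> rcases h2 with rfl | rfl
      exacts [G.irrefl hab, hxy hab, hxy hab.symm, G.irrefl hab]
    · exact c.valid (show (G.induce {x}ᶜ).Adj ⟨a, fun h => h1 (Or.inl h)⟩
        ⟨b, fun h => h2 (Or.inl h)⟩ from hab) (Option.some.inj hc')
  · show col x = col y
    simp [col]

theorem crit (k : ℕ) (hk : 1 ≤ k) (V : Type) [Finite V] [Nonempty V] (G : SimpleGraph V)
    (hc : ∀ x : V, (G.induce {x}ᶜ).Colorable (k - 1)) : ∃ d ≥ 1, MaximalDFold G d k := by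
  obtain ⟨v⟩ := ‹Nonempty V›
  haveI : Finite (Setoid V) := Finite.of_injective (fun s : Setoid V => s.r)
    fun s t h => Setoid.ext fun a b => iff_of_eq (congrFun (congrFun h a) b)
  refine ⟨(Colourings G k).ncard, ?_, le_rfl, fun x y hne hxy hd => ?_⟩
  · obtain ⟨s, hs, _⟩ := together G k hk v v (G.irrefl) (hc v)
    exact (Set.ncard_pos (Set.toFinite _)).2 ⟨s, hs⟩
  · obtain ⟨s, hs, hs'⟩ := together G k hk x y hxy (hc x)
    refine absurd hd (not_le.2 (Set.ncard_lt_ncard ⟨fun t ht => ⟨ht.1, fun a b h => ht.2 a b (Or.inl h)⟩,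
      fun hsub => (hsub hs).2 x y (Or.inr ((edge_adj _ _ _ _).2 ⟨Or.inl ⟨rfl, rfl⟩, hne⟩)) hs'⟩
      (Set.toFinite _)))

theorem result (k : ℕ) (hk : 1 ≤ k) : Q1 k ↔ Hadwiger k := by
  refine ⟨fun hQ V _ G => ?_, fun h _ _ V _ G _ => h V G⟩
  induction hn : Nat.card V using Nat.strong_induction_on generalizing V with
  | _ n ih =>
  by_cases hc : ∀ x : V, (G.induce {x}ᶜ).Colorable (k - 1)
  · rcases isEmpty_or_nonempty V with hV | hV
    · exact Or.inl (Colorable.of_isEmpty _)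
    obtain ⟨d, hd, hm⟩ := crit k hk V G hc
    exact hQ d hd V G hm
  · push Not at hc
    obtain ⟨x, hx⟩ := hc
    have hlt : Nat.card ({x}ᶜ : Set V) < n := by
      rw [← hn, Nat.card_coe_set_eq, ← Set.ncard_univ]
      exact Set.ncard_lt_ncard ⟨Set.subset_univ _, fun h => h (Set.mem_univ x) rfl⟩ (Set.toFinite _)
    exact Or.inr (lift G _ k ((ih _ hlt _ inferInstance (G.induce {x}ᶜ) rfl).resolve_left hx))

end Pool.Agent.Results.MP_d64b07_co.Equiv
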